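import Pool.Agent.N775.NW.Main
import Pool.Agent.N775.NW.Three

/-!
# Nonwandering points of the `N`-body problem near a close pair

For every number of bodies: if all distances except that of `a` and `b` are at least `δ`, and the
kinetic energy on the energy surface `H = E` over the configuration is `K = U + E`, then the proportion
of the momenta for which the phase point is nonwandering is at most `(C / (δ K)) ^ (3 / 2)`, where `C`
depends on the masses only. (Starting result `NonwanderingMomenta`: exponent `1`.)

Idea: if all relative velocities `V` of the clusters (the close pair and the other bodies) are large,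
then the bodies escape in the future, unless one relative velocity is nearly opposite to the relative
position, and they escape in the past, unless one relative velocity is nearly parallel to the relative
position. These two exceptions have to occur for two different pairs of clusters, and the relative
velocities of two different pairs of clusters are independent.
-/

set_option autoImplicit false

open MeasureTheory

namespace Pool.Agent.Results.MP_70f7a7_an.NonwanderingProportion

/-- The space `R³`. -/
abbrev R3 : Type := EuclideanSpace ℝ (Fin 3)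

/-- Phase space: pairs (positions, momenta) of `N` bodies. -/
abbrev Phase (N : ℕ) : Type := (Fin N → R3) × (Fin N → R3)

/-- Kinetic energy of the momenta `p`. -/
noncomputable def kinetic {N : ℕ} (m : Fin N → ℝ) (p : Fin N → R3) : ℝ :=
  ∑ i, ‖p i‖ ^ 2 / (2 * m i)

/-- The Newtonian potential `U(q) = ∑_{i<j} m_i m_j / |q_i - q_j|` (the energy is
kinetic energy minus `U`). -/
noncomputable def potential {N : ℕ} (m : Fin N → ℝ) (q : Fin N → R3) : ℝ :=
  ∑ i, ∑ j, m i * m j / ‖q i - q j‖ / 2

/-- The energy surface `H = E` of the reduced `N`-body problem (centre of mass `0`, total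
momentum `0`, no collisions). -/
def surface {N : ℕ} (m : Fin N → ℝ) (E : ℝ) : Set (Phase N) :=
  {x | (∀ i j, i ≠ j → x.1 i ≠ x.1 j) ∧ ∑ i, m i • x.1 i = 0 ∧ ∑ i, x.2 i = 0 ∧
    kinetic m x.2 - potential m x.1 = E}

/-- `φ` is the complete flow on the energy surface obtained from the `N`-body flow by a smooth
positive change of time `ψ`. -/
structure IsReparametrizedFlow {N : ℕ} (m : Fin N → ℝ) (E : ℝ) (ψ : Phase N → ℝ)
    (φ : ℝ → Phase N → Phase N) : Prop where
  /-- `ψ` is smooth outside collisions -/
  smooth : ContDiffOn ℝ ((⊤ : ℕ∞) : WithTop ℕ∞) ψ {x | ∀ i j, i ≠ j → x.1 i ≠ x.1 j}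
  /-- `ψ` is positive outside collisions -/
  pos : ∀ x : Phase N, (∀ i j, i ≠ j → x.1 i ≠ x.1 j) → 0 < ψ x
  /-- orbits exist for all times and solve the reparametrized equations of motion -/
  flow : ∀ x ∈ surface m E, φ 0 x = x ∧ ∀ t : ℝ, φ t x ∈ surface m E ∧
    HasDerivAt (fun s : ℝ => φ s x)
      (ψ (φ t x) • ((fun i => (m i)⁻¹ • (φ t x).2 i),
        (fun i => ∑ j, (m i * m j / ‖(φ t x).1 j - (φ t x).1 i‖ ^ 3) •
          ((φ t x).1 j - (φ t x).1 i)))) t

/-- `x` is a nonwandering point of the flow `φ` on the energy surface `S`. -/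
def IsNonwandering {N : ℕ} (S : Set (Phase N)) (φ : ℝ → Phase N → Phase N) (x : Phase N) : Prop :=
  ∀ V : Set (Phase N), IsOpen V → x ∈ V → ∀ T : ℝ, ∃ t : ℝ, T < t ∧ ∃ y ∈ V ∩ S, φ t y ∈ V

/-- The momenta `(P_1, ..., P_n, -P_1 - ... - P_n)` of `n + 1` bodies. -/
noncomputable def momenta {n : ℕ} (P : Fin n → R3) : Fin (n + 1) → R3 := Fin.snoc P (-∑ i, P i)

/-- The same momenta scaled so that their kinetic energy is `K`. -/
noncomputable def scaled {n : ℕ} (m : Fin (n + 1) → ℝ) (K : ℝ) (P : Fin n → R3) :
    Fin (n + 1) → R3 :=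
  Real.sqrt (K / kinetic m (momenta P)) • momenta P

theorem isFl {N : ℕ} {m : Fin N → ℝ} {E : ℝ} {ψ : Phase N → ℝ} {φ : ℝ → Phase N → Phase N}
    (h : IsReparametrizedFlow m E ψ φ) : Pool.Agent.Y516.NW.IsFl m E ψ φ :=
  ⟨h.smooth.continuousOn, h.pos, h.flow⟩

theorem part_one (n : ℕ) (hn : 2 ≤ n) (m : Fin (n + 1) → ℝ) (hm : ∀ i, 0 < m i) :
    ∃ C : ℝ, 0 < C ∧ ∀ (E : ℝ) (ψ : Phase (n + 1) → ℝ)
      (φ : ℝ → Phase (n + 1) → Phase (n + 1)), IsReparametrizedFlow m E ψ φ →
      ∀ q : Fin (n + 1) → R3, (∀ i j, i ≠ j → q i ≠ q j) → ∑ i, m i • q i = 0 →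
      0 < potential m q + E →
      ∀ a b : Fin (n + 1), a ≠ b → ∀ δ : ℝ, 0 < δ →
      (∀ i j, i ≠ j → ¬(i = a ∧ j = b) → ¬(i = b ∧ j = a) → δ ≤ ‖q i - q j‖) →
      volume {P : Fin n → R3 | kinetic m (momenta P) ≤ 1 ∧
          IsNonwandering (surface m E) φ (q, scaled m (potential m q + E) P)} ≤
        ENNReal.ofReal ((C / (δ * (potential m q + E))) ^ (3 / 2 : ℝ)) *
          volume {P : Fin n → R3 | kinetic m (momenta P) ≤ 1} := by
  obtain ⟨C, hC, h⟩ := Pool.Agent.N775.NW.main_neg n hn m hm
  refine ⟨C, hC, ?_⟩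
  intro E ψ φ hφ q hq hcen hK a b hab δ hδ hδq
  rcases le_or_gt E 0 with hE | hE
  · have h1 := h E hE ψ φ (isFl hφ) q hq hcen a b hab δ hδ
      (fun i j hP => hδq i j hP.1 hP.2.1 hP.2.2) hK
    have h2 : Real.sqrt (C / (δ * (potential m q + E))) ^ 3 =
        (C / (δ * (potential m q + E))) ^ (3 / 2 : ℝ) := by
      rw [Real.sqrt_eq_rpow, ← Real.rpow_natCast, ← Real.rpow_mul (by positivity)]
      norm_num
    rw [← h2]
    exact h1
  · refine le_trans (le_of_eq ?_) (zero_le)
    have hP := Pool.Agent.Y438.NW.pos (n + 1) m hm E hE ψ φ (isFl hφ)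
    refine measure_mono_null (t := {P : Fin n → R3 | P = 0}) ?_ ?_
    · rintro P ⟨_, hP2⟩
      by_contra hne
      have hkin0 : 0 ≤ kinetic m (momenta P) := Finset.sum_nonneg fun i _ => by
        have := hm i; positivity
      have hkin : 0 < kinetic m (momenta P) := by
        refine lt_of_le_of_ne hkin0 fun h0 => hne ?_
        have hz : ∀ i, momenta P i = 0 := by
          intro i
          have h1 := (Finset.sum_eq_zero_iff_of_nonneg (fun i _ => by
            have := hm i; positivity)).mp h0.symm i (Finset.mem_univ i)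
          have h2 : ‖momenta P i‖ ^ 2 = 0 := by
            rcases div_eq_zero_iff.mp h1 with h | h
            · exact h
            · have := hm i; linarith
          exact norm_eq_zero.mp (pow_eq_zero_iff (by norm_num) |>.mp h2)
        funext k
        have := hz k.castSucc
        simpa [momenta, Fin.snoc_castSucc] using this
      refine hP _ ?_ hP2
      refine ⟨hq, hcen, ?_, ?_⟩
      · have : ∑ i, (scaled m (potential m q + E) P) i =
            Real.sqrt ((potential m q + E) / kinetic m (momenta P)) • ∑ i, momenta P i := by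
          rw [Finset.smul_sum]; rfl
        show ∑ i, (scaled m (potential m q + E) P) i = 0
        rw [this]
        have h0 : ∑ i, momenta P i = 0 := Pool.Agent.Y516.NW.mom_sum P
        rw [h0, smul_zero]
      · have h1 : ∑ i, ‖(scaled m (potential m q + E) P) i‖ ^ 2 / (2 * m i) =
            (potential m q + E) / kinetic m (momenta P) * kinetic m (momenta P) := by
          rw [← Real.sq_sqrt (div_nonneg hK.le hkin0)]
          simp only [kinetic]
          rw [Finset.mul_sum]
          refine Finset.sum_congr rfl fun i _ => ?_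
          simp only [scaled, Pi.smul_apply, norm_smul, Real.norm_eq_abs, mul_pow, sq_abs]
          rw [mul_div_assoc]
          rfl
        show ∑ i, ‖(scaled m (potential m q + E) P) i‖ ^ 2 / (2 * m i) - potential m q = E
        rw [h1, div_mul_cancel₀ _ hkin.ne']
        ring
    · have h1 : {P : Fin n → R3 | P = 0} = {0} := rfl
      rw [h1]
      have h2 : Nonempty (Fin n) := ⟨⟨0, by omega⟩⟩
      have h3 : (⊥ : Submodule ℝ (Fin n → R3)) ≠ ⊤ := bot_ne_top
      exact Measure.addHaar_submodule volume _ h3

/-- For `n + 1 ≥ 3` bodies there is `C > 0`, depending on the masses only, such that for every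
energy `E`, every complete flow obtained from the `N`-body flow on `H = E` by a smooth positive change
of time, every configuration `q` without collisions and with centre of mass `0` in which all distances
except `|q_a - q_b|` are at least `δ` and in which `K = U(q) + E > 0`, the proportion of the momenta
(with sum `0` and kinetic energy `K`) for which `(q, p)` is nonwandering is at most
`(C / (δ K)) ^ (3 / 2)`. -/
theorem result (n : ℕ) (hn : 2 ≤ n) (m : Fin (n + 1) → ℝ) (hm : ∀ i, 0 < m i) :
    ∃ C : ℝ, 0 < C ∧ ∀ (E : ℝ) (ψ : Phase (n + 1) → ℝ)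
      (φ : ℝ → Phase (n + 1) → Phase (n + 1)), IsReparametrizedFlow m E ψ φ →
      ∀ q : Fin (n + 1) → R3, (∀ i j, i ≠ j → q i ≠ q j) → ∑ i, m i • q i = 0 →
      0 < potential m q + E →
      ∀ a b : Fin (n + 1), a ≠ b → ∀ δ : ℝ, 0 < δ →
      (∀ i j, i ≠ j → ¬(i = a ∧ j = b) → ¬(i = b ∧ j = a) → δ ≤ ‖q i - q j‖) →
      volume {P : Fin n → R3 | kinetic m (momenta P) ≤ 1 ∧
          IsNonwandering (surface m E) φ (q, scaled m (potential m q + E) P)} ≤
        ENNReal.ofReal ((C / (δ * (potential m q + E))) ^ (3 / 2 : ℝ)) *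
          volume {P : Fin n → R3 | kinetic m (momenta P) ≤ 1} :=
  part_one n hn m hm

end Pool.Agent.Results.MP_70f7a7_an.NonwanderingProportion
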