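import Pool.Agent.N775.NW.Three

/-!
# Nonwandering points of the three-body problem

For three bodies in space every nonwandering point, of any energy surface and for every complete flow
obtained by a smooth positive change of time, satisfies `|X| |V| ^ 2 ≤ C`, where `X` and `V` are the
position and the velocity of the third body relative to the centre of mass of the closest pair and `C`
depends on the masses only.

Idea: if `|X| |V| ^ 2` is large, then the third body escapes in the future, unless `V` is nearly opposite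
to `X`, and it escapes in the past, unless `V` is nearly parallel to `X`; so it always escapes in one of
the two directions of time, uniformly near the given point.
-/

set_option autoImplicit false

namespace Pool.Agent.Results.MP_70f7a7_an.ThreeBodyNonwandering

/-- The space `R³`. -/
abbrev R3 : Type := EuclideanSpace ℝ (Fin 3)

/-- Phase space: pairs (positions, momenta) of `N` bodies. -/
abbrev Phase (N : ℕ) : Type := (Fin N → R3) × (Fin N → R3)

/-- Kinetic energy of the momenta `p`. -/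
noncomputable def kinetic {N : ℕ} (m : Fin N → ℝ) (p : Fin N → R3) : ℝ :=
  ∑ i, ‖p i‖ ^ 2 / (2 * m i)

/-- The Newtonian potential `U(q) = ∑_{i<j} m_i m_j / |q_i - q_j|` (the energy is
kinetic energy minus `U`). -/
noncomputable def potential {N : ℕ} (m : Fin N → ℝ) (q : Fin N → R3) : ℝ :=
  ∑ i, ∑ j, m i * m j / ‖q i - q j‖ / 2

/-- The energy surface `H = E` of the reduced `N`-body problem (centre of mass `0`, total
momentum `0`, no collisions). -/
def surface {N : ℕ} (m : Fin N → ℝ) (E : ℝ) : Set (Phase N) :=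
  {x | (∀ i j, i ≠ j → x.1 i ≠ x.1 j) ∧ ∑ i, m i • x.1 i = 0 ∧ ∑ i, x.2 i = 0 ∧
    kinetic m x.2 - potential m x.1 = E}

/-- `φ` is the complete flow on the energy surface obtained from the `N`-body flow by a smooth
positive change of time `ψ`. -/
structure IsReparametrizedFlow {N : ℕ} (m : Fin N → ℝ) (E : ℝ) (ψ : Phase N → ℝ)
    (φ : ℝ → Phase N → Phase N) : Prop where
  /-- `ψ` is smooth outside collisions -/
  smooth : ContDiffOn ℝ ((⊤ : ℕ∞) : WithTop ℕ∞) ψ {x | ∀ i j, i ≠ j → x.1 i ≠ x.1 j}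
  /-- `ψ` is positive outside collisions -/
  pos : ∀ x : Phase N, (∀ i j, i ≠ j → x.1 i ≠ x.1 j) → 0 < ψ x
  /-- orbits exist for all times and solve the reparametrized equations of motion -/
  flow : ∀ x ∈ surface m E, φ 0 x = x ∧ ∀ t : ℝ, φ t x ∈ surface m E ∧
    HasDerivAt (fun s : ℝ => φ s x)
      (ψ (φ t x) • ((fun i => (m i)⁻¹ • (φ t x).2 i),
        (fun i => ∑ j, (m i * m j / ‖(φ t x).1 j - (φ t x).1 i‖ ^ 3) •
          ((φ t x).1 j - (φ t x).1 i)))) t

/-- `x` is a nonwandering point of the flow `φ` on the energy surface `S`. -/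
def IsNonwandering {N : ℕ} (S : Set (Phase N)) (φ : ℝ → Phase N → Phase N) (x : Phase N) : Prop :=
  ∀ V : Set (Phase N), IsOpen V → x ∈ V → ∀ T : ℝ, ∃ t : ℝ, T < t ∧ ∃ y ∈ V ∩ S, φ t y ∈ V

theorem isFl {N : ℕ} {m : Fin N → ℝ} {E : ℝ} {ψ : Phase N → ℝ} {φ : ℝ → Phase N → Phase N}
    (h : IsReparametrizedFlow m E ψ φ) : Pool.Agent.Y516.NW.IsFl m E ψ φ :=
  ⟨h.smooth.continuousOn, h.pos, h.flow⟩

theorem part_two (m : Fin 3 → ℝ) (hm : ∀ i, 0 < m i) :
    ∃ C : ℝ, 0 < C ∧ ∀ (E : ℝ) (ψ : Phase 3 → ℝ) (φ : ℝ → Phase 3 → Phase 3),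
      IsReparametrizedFlow m E ψ φ → ∀ x ∈ surface m E, IsNonwandering (surface m E) φ x →
      ∀ a b c : Fin 3, a ≠ b → a ≠ c → b ≠ c →
        ‖x.1 a - x.1 b‖ ≤ ‖x.1 a - x.1 c‖ → ‖x.1 a - x.1 b‖ ≤ ‖x.1 b - x.1 c‖ →
        ‖(m a + m b)⁻¹ • (m a • x.1 a + m b • x.1 b) - x.1 c‖ *
          ‖(m a + m b)⁻¹ • (x.2 a + x.2 b) - (m c)⁻¹ • x.2 c‖ ^ 2 ≤ C := by
  obtain ⟨C, hC, h⟩ := Pool.Agent.N775.NW.three m hm
  refine ⟨C, hC, ?_⟩
  intro E ψ φ hφ x hx hNW a b c hab hac hbc h1 h2
  have h3 := h E ψ φ (isFl hφ) x hx hNW a b c hab hac hbc h1 h2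
  have e1 : Pool.Agent.Y516.NW.cm m a b x.1 a = (m a + m b)⁻¹ • (m a • x.1 a + m b • x.1 b) := by
    unfold Pool.Agent.Y516.NW.cm
    rw [if_pos (Or.inl rfl)]
  have e2 : Pool.Agent.Y516.NW.cm m a b (Pool.Agent.Y516.NW.vel m x) a =
      (m a + m b)⁻¹ • (x.2 a + x.2 b) := by
    unfold Pool.Agent.Y516.NW.cm Pool.Agent.Y516.NW.vel
    rw [if_pos (Or.inl rfl), smul_smul, smul_smul, mul_inv_cancel₀ (hm a).ne',
      mul_inv_cancel₀ (hm b).ne', one_smul, one_smul]
  rw [e1, e2] at h3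
  exact h3

/-- For three bodies there is `C > 0`, depending on the masses only, such that for every energy and every
complete flow obtained from the three-body flow by a smooth positive change of time every nonwandering
point satisfies `|X| |V| ^ 2 ≤ C`, where `X` and `V` are the position and the velocity of the third body
`c` relative to the centre of mass of the closest pair `a`, `b`. -/
theorem result (m : Fin 3 → ℝ) (hm : ∀ i, 0 < m i) :
    ∃ C : ℝ, 0 < C ∧ ∀ (E : ℝ) (ψ : Phase 3 → ℝ) (φ : ℝ → Phase 3 → Phase 3),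
      IsReparametrizedFlow m E ψ φ → ∀ x ∈ surface m E, IsNonwandering (surface m E) φ x →
      ∀ a b c : Fin 3, a ≠ b → a ≠ c → b ≠ c →
        ‖x.1 a - x.1 b‖ ≤ ‖x.1 a - x.1 c‖ → ‖x.1 a - x.1 b‖ ≤ ‖x.1 b - x.1 c‖ →
        ‖(m a + m b)⁻¹ • (m a • x.1 a + m b • x.1 b) - x.1 c‖ *
          ‖(m a + m b)⁻¹ • (x.2 a + x.2 b) - (m c)⁻¹ • x.2 c‖ ^ 2 ≤ C :=
  part_two m hm

end Pool.Agent.Results.MP_70f7a7_an.ThreeBodyNonwandering
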